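import Mathlib

/-!
# Covers of the projective line, their Tschirnhausen bundle and their bundle of quadrics

Let `k` be an algebraically closed field of characteristic `0`.  A finite cover `α : C → ℙ¹` of
degree `d` by a connected smooth projective curve `C` is the same as a field extension `K` of
degree `d` of the rational function field `k(t) = RatFunc k`, where `K` is the function field of
`C`.

A vector bundle on `ℙ¹` with generic fibre inside the `k(t)`-vector space `V` is given by its
sections over the affine line `Spec k[t]` (a `k[t]`-lattice) and its germs of sections at infinity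
(a lattice over the local ring `infRing k` of `ℙ¹` at infinity).  Here both are given as subsets
of `V`; the bundle `O(a)` is given by `k[t]` and by the rational functions of degree `≤ a`.

For a cover as above the bundles of interest are

* `α_* O_C`: the elements of `K` integral over `k[t]`, resp. integral over `infRing k`;
* `α_* ω_α`: the dual for the trace form, `omegaFin`, resp. `omegaInf`;
* the Tschirnhausen bundle `E`, the kernel of the trace `α_* ω_α → O`: `tschFin`, resp. `tschInf`;
* `Sym² E`, inside `K ⊗ K`: `symFin`, resp. `symInf`;
* the bundle of quadrics `N₁ = ker (Sym² E → α_* (ω_α²))`: `quadricsFin`, resp. `quadricsInf`.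
-/

set_option autoImplicit false

open Polynomial
open scoped TensorProduct

namespace H248

/-- The local ring of the projective line at infinity: the rational functions `f` in `k(t)` with
`deg f ≤ 0` (degree of the numerator minus degree of the denominator), and `0`. -/
def infRing (k : Type*) [Field k] : Subring (RatFunc k) where
  carrier := {f | f = 0 ∨ f.intDegree ≤ 0}
  mul_mem' := by
    intro f g hf hg
    by_cases hf0 : f = 0
    · left; rw [hf0, zero_mul]
    by_cases hg0 : g = 0
    · left; rw [hg0, mul_zero]
    right
    rw [RatFunc.intDegree_mul hf0 hg0]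
    have h1 := hf.resolve_left hf0
    have h2 := hg.resolve_left hg0
    omega
  one_mem' := by right; simp
  add_mem' := by
    intro f g hf hg
    by_cases hf0 : f = 0
    · rw [hf0, zero_add]; exact hg
    by_cases hg0 : g = 0
    · rw [hg0, add_zero]; exact hf
    by_cases h0 : f + g = 0
    · left; exact h0
    right
    refine (RatFunc.intDegree_add_le hg0 h0).trans (max_le (hf.resolve_left hf0)
      (hg.resolve_left hg0))
  zero_mem' := Or.inl rfl
  neg_mem' := by
    intro f hf
    rcases hf with hf | hf
    · left; rw [hf, neg_zero]
    · right; rw [RatFunc.intDegree_neg]; exact hf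


/-- A vector bundle on the projective line over `k`, with generic fibre inside the
`k(t)`-vector space `V`, sections `M₀` over the affine line and germs of sections `M₁` at infinity,
is balanced: it is a direct sum of line bundles `O(a i)` with `|a i - a j| ≤ 1` for all `i`, `j`.
Here the line bundle `O(a i)` is the one generated by `w i` over the affine line and by
`t ^ (a i) • w i` at infinity. -/
def IsBalanced (k : Type*) [Field k] {V : Type*} [AddCommGroup V] [Module (RatFunc k) V]
    (M₀ M₁ : Set V) : Prop :=
  ∃ (r : ℕ) (a : Fin r → ℤ) (w : Fin r → V), (∀ i j, |a i - a j| ≤ 1) ∧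
    LinearIndependent (RatFunc k) w ∧
    (∀ z, z ∈ M₀ ↔ ∃ p : Fin r → k[X], z = ∑ i, algebraMap k[X] (RatFunc k) (p i) • w i) ∧
    ∀ z, z ∈ M₁ ↔ ∃ f : Fin r → RatFunc k, (∀ i, f i = 0 ∨ (f i).intDegree ≤ a i) ∧
      z = ∑ i, f i • w i

section cover

variable (k : Type*) [Field k] (K : Type*) [Field K] [Algebra (RatFunc k) K]

/-- Sections of `α_* ω_α` over the affine line: the dual of the ring of the elements of `K` integral
over `k[t]`, for the trace form. -/
def omegaFin [Algebra k[X] K] : Set K :=
  {x | ∀ y : K, IsIntegral k[X] y →
    ∃ p : k[X], Algebra.trace (RatFunc k) K (x * y) = algebraMap k[X] (RatFunc k) p}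

/-- Germs of sections of `α_* ω_α` at infinity: the dual of the ring of the elements of `K` integral
over the local ring of the projective line at infinity, for the trace form. -/
def omegaInf : Set K :=
  {x | ∀ y : K, IsIntegral (infRing k) y → Algebra.trace (RatFunc k) K (x * y) ∈ infRing k}

/-- The space `H⁰(C, ω_C)` of regular differentials of the curve `C`, where
`ω_C = ω_α ⊗ α^* O(-2)`: the elements `x` with `x ∈ omegaFin` and `t² x ∈ omegaInf`. -/
def regularDifferentials [Algebra k[X] K] [Algebra k K] [IsScalarTower k (RatFunc k) K] :
    Submodule k K where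
  carrier := {x | x ∈ omegaFin k K ∧ algebraMap (RatFunc k) K (RatFunc.X ^ 2) * x ∈ omegaInf k K}
  add_mem' := by
    rintro x y ⟨hx, hx'⟩ ⟨hy, hy'⟩
    constructor
    · intro z hz
      obtain ⟨p, hp⟩ := hx z hz
      obtain ⟨q, hq⟩ := hy z hz
      exact ⟨p + q, by rw [add_mul, map_add, hp, hq, map_add]⟩
    · intro z hz
      rw [mul_add, add_mul, map_add]
      exact (infRing k).add_mem (hx' z hz) (hy' z hz)
  zero_mem' := by
    constructor
    · intro z _
      exact ⟨0, by simp⟩
    · intro z _
      rw [mul_zero, zero_mul, map_zero]
      exact (infRing k).zero_mem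
  smul_mem' := by
    rintro c x ⟨hx, hx'⟩
    constructor
    · intro z hz
      obtain ⟨p, hp⟩ := hx z hz
      refine ⟨Polynomial.C c * p, ?_⟩
      rw [smul_mul_assoc, ← algebraMap_smul (RatFunc k) c (x * z), map_smul, hp, smul_eq_mul, map_mul]
      congr 1
    · intro z hz
      rw [mul_smul_comm, smul_mul_assoc, ← algebraMap_smul (RatFunc k) c, map_smul, smul_eq_mul]
      refine (infRing k).mul_mem (Or.inr ?_) (hx' z hz)
      exact (RatFunc.intDegree_C c).le

/-- The genus of `C`, the dimension of the space of regular differentials. -/
noncomputable def genus [Algebra k[X] K] [Algebra k K] [IsScalarTower k (RatFunc k) K] : ℕ :=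
  Module.finrank k (regularDifferentials k K)

/-- Sections over the affine line of the Tschirnhausen bundle `E`. -/
def tschFin [Algebra k[X] K] : Set K :=
  {x | x ∈ omegaFin k K ∧ Algebra.trace (RatFunc k) K x = 0}

/-- Germs of sections at infinity of the Tschirnhausen bundle `E`. -/
def tschInf : Set K :=
  {x | x ∈ omegaInf k K ∧ Algebra.trace (RatFunc k) K x = 0}

/-- Sections over the affine line of `Sym² E`, as symmetric tensors (`2` is invertible). -/
noncomputable def symFin [Algebra k[X] K] : AddSubgroup (K ⊗[RatFunc k] K) :=
  AddSubgroup.closure {z | ∃ x ∈ tschFin k K, ∃ y ∈ tschFin k K, z = x ⊗ₜ y + y ⊗ₜ x}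

/-- Germs of sections at infinity of `Sym² E`, as symmetric tensors (`2` is invertible). -/
noncomputable def symInf : AddSubgroup (K ⊗[RatFunc k] K) :=
  AddSubgroup.closure {z | ∃ x ∈ tschInf k K, ∃ y ∈ tschInf k K, z = x ⊗ₜ y + y ⊗ₜ x}

/-- Sections over the affine line of the bundle of quadrics `N₁`, the kernel of the multiplication
map from `Sym² E` to `α_* (ω_α²)`. -/
def quadricsFin [Algebra k[X] K] : Set (K ⊗[RatFunc k] K) :=
  {z | z ∈ symFin k K ∧ LinearMap.mul' (RatFunc k) K z = 0}

/-- Germs of sections at infinity of the bundle of quadrics `N₁`. -/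
def quadricsInf : Set (K ⊗[RatFunc k] K) :=
  {z | z ∈ symInf k K ∧ LinearMap.mul' (RatFunc k) K z = 0}

end cover

end H248
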