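import Mathlib

/-!
Basic facts on `k(t)`, its valuation at infinity, and the splitting theorem for pairs of lattices.
-/

set_option autoImplicit false

open Polynomial WithZero

namespace H248

variable {k : Type*} [Field k]

/-- the valuation at infinity of `k(t)` -/
noncomputable def vi (k : Type*) [Field k] : Valuation (RatFunc k) ℤᵐ⁰ :=
  letI : DecidableEq (RatFunc k) := Classical.decEq _
  RatFunc.inftyValuation k

theorem vi_of_nonzero {f : RatFunc k} (hf : f ≠ 0) : vi k f = exp f.intDegree := by
  letI : DecidableEq (RatFunc k) := Classical.decEq _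
  exact RatFunc.inftyValuation_of_nonzero k hf

/-- polynomials inside `k(t)` -/
def IsPoly (f : RatFunc k) : Prop := ∃ p : k[X], algebraMap k[X] (RatFunc k) p = f

theorem vi_poly {p : k[X]} (hp : p ≠ 0) :
    vi k (algebraMap k[X] (RatFunc k) p) = exp (p.natDegree : ℤ) := by
  rw [vi_of_nonzero (by simpa using hp), RatFunc.intDegree_polynomial]

theorem vi_zpow (n : ℤ) : vi k ((RatFunc.X : RatFunc k) ^ n) = exp n := by
  letI : DecidableEq (RatFunc k) := Classical.decEq _
  exact RatFunc.inftyValuation.X_zpow k n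

theorem vi_C {c : k} (h : c ≠ 0) : vi k (RatFunc.C c) = 1 := by
  rw [vi_of_nonzero (by simpa using h), RatFunc.intDegree_C, exp_zero]

theorem vi_C_le (c : k) : vi k (RatFunc.C c) ≤ 1 := by
  by_cases h : c = 0
  · simp [h]
  · rw [vi_C h]

theorem isPoly_zero : IsPoly (0 : RatFunc k) := ⟨0, map_zero _⟩

theorem IsPoly.add {f g : RatFunc k} (hf : IsPoly f) (hg : IsPoly g) : IsPoly (f + g) := by
  obtain ⟨p, rfl⟩ := hf
  obtain ⟨q, rfl⟩ := hg
  exact ⟨p + q, map_add _ _ _⟩

theorem IsPoly.mul {f g : RatFunc k} (hf : IsPoly f) (hg : IsPoly g) : IsPoly (f * g) := by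
  obtain ⟨p, rfl⟩ := hf
  obtain ⟨q, rfl⟩ := hg
  exact ⟨p * q, map_mul _ _ _⟩

theorem IsPoly.neg {f : RatFunc k} (hf : IsPoly f) : IsPoly (-f) := by
  obtain ⟨p, rfl⟩ := hf
  exact ⟨-p, map_neg _ _⟩

theorem IsPoly.sub {f g : RatFunc k} (hf : IsPoly f) (hg : IsPoly g) : IsPoly (f - g) := by
  rw [sub_eq_add_neg]
  exact hf.add hg.neg

theorem isPoly_one : IsPoly (1 : RatFunc k) := ⟨1, map_one _⟩

theorem isPoly_C (c : k) : IsPoly (RatFunc.C c) := ⟨Polynomial.C c, by simp⟩

theorem IsPoly.sum {ι : Type*} (s : Finset ι) {f : ι → RatFunc k} (hf : ∀ i ∈ s, IsPoly (f i)) :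
    IsPoly (∑ i ∈ s, f i) := by
  classical
  induction s using Finset.induction_on with
  | empty => simpa using isPoly_zero
  | insert a s ha ih =>
    rw [Finset.sum_insert ha]
    exact (hf a (by simp)).add (ih fun i hi => hf i (by simp [hi]))

theorem IsPoly.prod {ι : Type*} (s : Finset ι) {f : ι → RatFunc k} (hf : ∀ i ∈ s, IsPoly (f i)) :
    IsPoly (∏ i ∈ s, f i) := by
  classical
  induction s using Finset.induction_on with
  | empty => simpa using isPoly_one
  | insert a s ha ih =>
    rw [Finset.prod_insert ha]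
    exact (hf a (by simp)).mul (ih fun i hi => hf i (by simp [hi]))

theorem IsPoly.det {ι : Type*} [Fintype ι] [DecidableEq ι] {M : Matrix ι ι (RatFunc k)}
    (h : ∀ i j, IsPoly (M i j)) : IsPoly M.det := by
  rw [Matrix.det_apply']
  refine IsPoly.sum _ fun σ _ => ?_
  refine IsPoly.mul ?_ (IsPoly.prod _ fun i _ => h _ _)
  exact ⟨((Equiv.Perm.sign σ : ℤ) : k[X]), by simp⟩

theorem isPoly_X_pow (n : ℕ) : IsPoly ((RatFunc.X : RatFunc k) ^ n) :=
  ⟨Polynomial.X ^ n, by simp⟩

theorem isPoly_X_zpow {n : ℤ} (hn : 0 ≤ n) : IsPoly ((RatFunc.X : RatFunc k) ^ n) := by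
  obtain ⟨m, rfl⟩ := Int.eq_ofNat_of_zero_le hn
  rw [zpow_natCast]
  exact isPoly_X_pow m

/-- a nonzero polynomial has valuation at least one -/
theorem one_le_vi_poly {f : RatFunc k} (hf : IsPoly f) (h0 : f ≠ 0) : 1 ≤ vi k f := by
  obtain ⟨p, rfl⟩ := hf
  have hp : p ≠ 0 := by
    rintro rfl
    exact h0 (map_zero _)
  rw [vi_poly hp, ← exp_zero]
  exact exp_le_exp.2 (by positivity)

theorem isPoly_eq_zero {f : RatFunc k} (hf : IsPoly f) (h : vi k f < 1) : f = 0 := by
  by_contra h0
  exact absurd (one_le_vi_poly hf h0) (not_le.2 h)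

theorem exists_poly (f : RatFunc k) : ∃ p : k[X], vi k (f - algebraMap k[X] (RatFunc k) p) < 1 := by
  obtain ⟨a, b, hb, rfl⟩ := IsFractionRing.div_surjective (A := k[X]) f
  have hb0 : b ≠ 0 := nonZeroDivisors.ne_zero hb
  have hb' : algebraMap k[X] (RatFunc k) b ≠ 0 := by
    simpa using hb0
  refine ⟨a / b, ?_⟩
  have h1 : algebraMap k[X] (RatFunc k) a / algebraMap k[X] (RatFunc k) b -
      algebraMap k[X] (RatFunc k) (a / b) =
      algebraMap k[X] (RatFunc k) (a % b) / algebraMap k[X] (RatFunc k) b := by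
    have h2 : a = b * (a / b) + a % b := (EuclideanDomain.div_add_mod a b).symm
    have h3 : algebraMap k[X] (RatFunc k) a = algebraMap k[X] (RatFunc k) b *
        algebraMap k[X] (RatFunc k) (a / b) + algebraMap k[X] (RatFunc k) (a % b) := by
      rw [← map_mul, ← map_add, ← h2]
    rw [h3]
    field_simp
    ring
  rw [h1]
  by_cases h0 : a % b = 0
  · rw [h0]
    simp
  · rw [map_div₀, vi_poly h0, vi_poly hb0, ← exp_sub, ← exp_zero]
    apply exp_lt_exp.2
    have h5 : (a % b).natDegree < b.natDegree := by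
      apply Polynomial.natDegree_lt_natDegree h0
      exact EuclideanDomain.mod_lt a hb0
    have : ((a % b).natDegree : ℤ) < b.natDegree := by exact_mod_cast h5
    linarith

theorem exists_const {f : RatFunc k} (hf : vi k f ≤ 1) : ∃ c : k, vi k (f - RatFunc.C c) < 1 := by
  obtain ⟨p, hp⟩ := exists_poly f
  have h1 : vi k (algebraMap k[X] (RatFunc k) p) ≤ 1 := by
    have h2 : algebraMap k[X] (RatFunc k) p = f - (f - algebraMap k[X] (RatFunc k) p) := by ring
    rw [h2]
    exact (Valuation.map_sub _ _ _).trans (max_le hf hp.le)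
  have h3 : p.natDegree = 0 := by
    by_cases h0 : p = 0
    · simp [h0]
    · rw [vi_poly h0, ← exp_zero] at h1
      have := exp_le_exp.1 h1
      omega
  rw [Polynomial.natDegree_eq_zero] at h3
  obtain ⟨c, rfl⟩ := h3
  refine ⟨c, ?_⟩
  simpa using hp

theorem C_eq_zero_of_lt {c : k} (h : vi k (RatFunc.C c) < 1) : c = 0 := by
  by_contra h0
  rw [vi_C h0] at h
  exact lt_irrefl _ h

/-- the residue map at infinity -/
noncomputable def res : (vi k).integer →+* k where
  toFun f := (exists_const f.2).choose
  map_one' := by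
    have h := (exists_const (k := k) (f := ((1 : (vi k).integer) : RatFunc k))
      (1 : (vi k).integer).2).choose_spec
    have h2 : vi k (RatFunc.C (1 - (exists_const (k := k) (f := ((1 : (vi k).integer) : RatFunc k))
      (1 : (vi k).integer).2).choose)) < 1 := by
      rw [map_sub, map_one]
      exact h
    exact (sub_eq_zero.1 (C_eq_zero_of_lt h2)).symm
  map_mul' f g := by
    have h1 := (exists_const f.2).choose_spec
    have h2 := (exists_const g.2).choose_spec
    have h3 := (exists_const (f * g).2).choose_spec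
    set a := (exists_const f.2).choose
    set b := (exists_const g.2).choose
    set c := (exists_const (f * g).2).choose
    have h4 : vi k (RatFunc.C (a * b - c)) < 1 := by
      have h5 : RatFunc.C (a * b - c) = ((f * g : (vi k).integer) : RatFunc k) - RatFunc.C c
          - ((f : RatFunc k) * ((g : RatFunc k) - RatFunc.C b)
          + RatFunc.C b * ((f : RatFunc k) - RatFunc.C a)) := by
        rw [map_sub, map_mul]
        push_cast
        ring
      rw [h5]
      refine (Valuation.map_sub _ _ _).trans_lt (max_lt h3 ?_)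
      refine (Valuation.map_add _ _ _).trans_lt (max_lt ?_ ?_)
      · rw [map_mul]
        exact (mul_le_of_le_one_left' f.2).trans_lt h2
      · rw [map_mul]
        exact (mul_le_of_le_one_left' (vi_C_le b)).trans_lt h1
    exact (sub_eq_zero.1 (C_eq_zero_of_lt h4)).symm
  map_zero' := by
    have h := (exists_const (k := k) (f := ((0 : (vi k).integer) : RatFunc k))
      (0 : (vi k).integer).2).choose_spec
    have h2 : vi k (RatFunc.C (0 - (exists_const (k := k) (f := ((0 : (vi k).integer) : RatFunc k))
      (0 : (vi k).integer).2).choose)) < 1 := by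
      rw [map_sub, map_zero]
      exact h
    exact (sub_eq_zero.1 (C_eq_zero_of_lt h2)).symm
  map_add' f g := by
    have h1 := (exists_const f.2).choose_spec
    have h2 := (exists_const g.2).choose_spec
    have h3 := (exists_const (f + g).2).choose_spec
    set a := (exists_const f.2).choose
    set b := (exists_const g.2).choose
    set c := (exists_const (f + g).2).choose
    have h4 : vi k (RatFunc.C (a + b - c)) < 1 := by
      have h5 : RatFunc.C (a + b - c) = ((f + g : (vi k).integer) : RatFunc k) - RatFunc.C c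
          - (((f : RatFunc k) - RatFunc.C a)
          + ((g : RatFunc k) - RatFunc.C b)) := by
        rw [map_sub, map_add]
        push_cast
        ring
      rw [h5]
      refine (Valuation.map_sub _ _ _).trans_lt (max_lt h3 ?_)
      exact (Valuation.map_add _ _ _).trans_lt (max_lt h1 h2)
    exact (sub_eq_zero.1 (C_eq_zero_of_lt h4)).symm

theorem res_spec (f : (vi k).integer) : vi k ((f : RatFunc k) - RatFunc.C (res f)) < 1 :=
  (exists_const f.2).choose_spec

theorem res_eq_zero_iff (f : (vi k).integer) : res f = 0 ↔ vi k (f : RatFunc k) < 1 := by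
  have h := res_spec f
  constructor
  · intro h0
    rw [h0] at h
    simpa using h
  · intro h0
    apply C_eq_zero_of_lt
    have : RatFunc.C (res f) = (f : RatFunc k) - ((f : RatFunc k) - RatFunc.C (res f)) := by ring
    rw [this]
    exact (Valuation.map_sub _ _ _).trans_lt (max_lt h0 h)

/-- strict and non strict inequalities -/
theorem lt_exp_iff {x : ℤᵐ⁰} {n : ℤ} : x < exp n ↔ x ≤ exp (n - 1) := by
  by_cases h : x = 0
  · subst h
    simp
  · obtain ⟨m, rfl⟩ : ∃ m, x = exp m := ⟨log x, (exp_log h).symm⟩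
    rw [exp_lt_exp, exp_le_exp]
    omega

end H248
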