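import Pool.Agent.H248R3.P1

/-!
The splitting theorem: two lattices over `k[t]` and over the local ring at infinity have a common
adapted basis.
-/

set_option autoImplicit false
set_option linter.unusedSectionVars false

open Polynomial WithZero Module

namespace H248

variable {k : Type*} [Field k] {V : Type*} [AddCommGroup V] [Module (RatFunc k) V]
  {ι : Type*} [Fintype ι] [DecidableEq ι]

/-- `b` and `w` span the same `k[t]`-lattice -/
def SameFin (b w : Basis ι (RatFunc k) V) : Prop :=
  ∀ x, (∀ i, IsPoly (b.repr x i)) ↔ ∀ i, IsPoly (w.repr x i)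

theorem SameFin.refl (b : Basis ι (RatFunc k) V) : SameFin b b := fun _ => Iff.rfl

theorem isPoly_repr_self (b : Basis ι (RatFunc k) V) (j i : ι) : IsPoly (b.repr (b j) i) := by
  rw [Basis.repr_self, Finsupp.single_apply]
  split_ifs
  · exact isPoly_one
  · exact isPoly_zero

theorem SameFin.vi_det {b w : Basis ι (RatFunc k) V} (h : SameFin b w) : vi k (b.det w) = 1 := by
  have h1 : IsPoly (b.det w) := by
    rw [Basis.det_apply]
    refine IsPoly.det fun i j => ?_
    rw [Basis.toMatrix_apply]
    exact (h (w j)).2 (fun i => isPoly_repr_self w j i) i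
  have h2 : IsPoly (w.det b) := by
    rw [Basis.det_apply]
    refine IsPoly.det fun i j => ?_
    rw [Basis.toMatrix_apply]
    exact (h (b j)).1 (fun i => isPoly_repr_self b j i) i
  have h3 : b.det w * w.det b = 1 := by
    rw [Basis.det_apply, Basis.det_apply, ← Matrix.det_mul, Basis.toMatrix_mul_toMatrix_flip,
      Matrix.det_one]
  have h4 : vi k (b.det w) * vi k (w.det b) = 1 := by rw [← map_mul, h3, map_one]
  have h5 : b.det w ≠ 0 := left_ne_zero_of_mul_eq_one h3
  have h6 : w.det b ≠ 0 := right_ne_zero_of_mul_eq_one h3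
  have h7 := one_le_vi_poly h1 h5
  have h8 := one_le_vi_poly h2 h6
  apply le_antisymm _ h7
  calc vi k (b.det w) = vi k (b.det w) * 1 := (mul_one _).symm
    _ ≤ vi k (b.det w) * vi k (w.det b) := by gcongr
    _ = 1 := h4

theorem vi_det_le {M : Matrix ι ι (RatFunc k)} {a : ι → ℤ}
    (h : ∀ i j, vi k (M i j) ≤ exp (a j)) : vi k M.det ≤ exp (∑ j, a j) := by
  rw [Matrix.det_apply']
  refine Valuation.map_sum_le _ fun σ _ => ?_
  rw [map_mul, map_prod]
  have h1 : vi k ((Equiv.Perm.sign σ : ℤ) : RatFunc k) ≤ 1 := by
    rcases Int.units_eq_one_or (Equiv.Perm.sign σ) with hs | hs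
    · rw [hs]; simp
    · rw [hs]; simp
  have h2 : ∏ i, vi k (M (σ i) i) ≤ exp (∑ j, a j) := by
    have h3 : (exp (∑ j, a j) : ℤᵐ⁰) = ∏ j, exp (a j) := by
      have : ∀ s : Finset ι, (exp (∑ j ∈ s, a j) : ℤᵐ⁰) = ∏ j ∈ s, exp (a j) := by
        intro s
        induction s using Finset.induction_on with
        | empty => simp
        | insert j s hj ih => rw [Finset.sum_insert hj, Finset.prod_insert hj, exp_add, ih]
      exact this _
    rw [h3]
    exact Finset.prod_le_prod' fun i _ => h _ _
  calc _ ≤ 1 * ∏ i, vi k (M (σ i) i) := by gcongr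
    _ ≤ _ := by rw [one_mul]; exact h2

/-- a change of basis: `w j0` is replaced by `∑ p j • w j` -/
theorem exists_change (w : Basis ι (RatFunc k) V) (j0 : ι) (c : k) (hc : c ≠ 0)
    (p : ι → RatFunc k) (hp : ∀ j, IsPoly (p j)) (hpj : p j0 = RatFunc.C c) :
    ∃ w' : Basis ι (RatFunc k) V, SameFin w w' ∧ (∀ j, j ≠ j0 → w' j = w j) ∧
      w' j0 = ∑ j, p j • w j := by
  have hc' : (RatFunc.C c : RatFunc k) ≠ 0 := by simpa using hc
  let E : (ι → RatFunc k) ≃ₗ[RatFunc k] (ι → RatFunc k) :=
    { toFun := fun x j => if j = j0 then RatFunc.C c⁻¹ * x j0 else x j - p j * (RatFunc.C c⁻¹ * x j0)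
      invFun := fun y j => if j = j0 then RatFunc.C c * y j0 else y j + p j * y j0
      map_add' := by
        intro x y
        ext j
        simp only [Pi.add_apply]
        split_ifs <;> ring
      map_smul' := by
        intro r x
        ext j
        simp only [Pi.smul_apply, smul_eq_mul, RingHom.id_apply]
        split_ifs <;> ring
      left_inv := by
        intro x
        ext j
        simp only [if_true]
        have h1 : RatFunc.C c * RatFunc.C c⁻¹ = (1 : RatFunc k) := by
          rw [← map_mul, mul_inv_cancel₀ hc, map_one]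
        split_ifs with h
        · subst h
          rw [← mul_assoc, h1, one_mul]
        · ring
      right_inv := by
        intro y
        ext j
        simp only [if_true]
        have h1 : RatFunc.C c⁻¹ * RatFunc.C c = (1 : RatFunc k) := by
          rw [← map_mul, inv_mul_cancel₀ hc, map_one]
        split_ifs with h
        · subst h
          rw [← mul_assoc, h1, one_mul]
        · rw [← mul_assoc (RatFunc.C c⁻¹), h1]
          ring }
  let w' : Basis ι (RatFunc k) V := Basis.ofEquivFun (w.equivFun ≪≫ₗ E)
  have hrepr : ∀ x j, w'.repr x j = if j = j0 then RatFunc.C c⁻¹ * w.repr x j0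
      else w.repr x j - p j * (RatFunc.C c⁻¹ * w.repr x j0) := by
    intro x j
    rfl
  have hw' : ∀ j, w' j = w.equivFun.symm (E.symm (Pi.single j 1)) := by
    intro j
    rw [Basis.coe_ofEquivFun]
    rfl
  refine ⟨w', ?_, ?_, ?_⟩
  · intro x
    constructor
    · intro h i
      rw [hrepr]
      split_ifs
      · exact (isPoly_C _).mul (h _)
      · exact (h _).sub ((hp _).mul ((isPoly_C _).mul (h _)))
    · intro h i
      have h0 : w.repr x j0 = RatFunc.C c * w'.repr x j0 := by
        rw [hrepr, if_pos rfl, ← mul_assoc, ← map_mul, mul_inv_cancel₀ hc, map_one, one_mul]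
      by_cases hi : i = j0
      · subst hi
        rw [h0]
        exact (isPoly_C _).mul (h _)
      · have h1 : w.repr x i = w'.repr x i + p i * w'.repr x j0 := by
          rw [hrepr, if_neg hi, hrepr, if_pos rfl]
          ring
        rw [h1]
        exact (h _).add ((hp _).mul (h _))
  · intro j hj
    rw [hw', Basis.equivFun_symm_apply]
    have : ∀ i, E.symm (Pi.single j 1) i = if i = j then 1 else 0 := by
      intro i
      change (if i = j0 then RatFunc.C c * (Pi.single j 1 : ι → RatFunc k) j0
        else (Pi.single j 1 : ι → RatFunc k) i + p i * (Pi.single j 1 : ι → RatFunc k) j0) = _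
      rw [Pi.single_eq_of_ne (Ne.symm hj)]
      by_cases hi : i = j0
      · subst hi
        rw [if_pos rfl, if_neg (Ne.symm hj), mul_zero]
      · rw [if_neg hi, mul_zero, add_zero, Pi.single_apply]
    simp only [this, ite_smul, one_smul, zero_smul, Finset.sum_ite_eq', Finset.mem_univ, if_true]
  · rw [hw', Basis.equivFun_symm_apply]
    refine Finset.sum_congr rfl fun i _ => ?_
    congr 1
    change (if i = j0 then RatFunc.C c * (Pi.single j0 1 : ι → RatFunc k) j0
        else (Pi.single j0 1 : ι → RatFunc k) i + p i * (Pi.single j0 1 : ι → RatFunc k) j0) = _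
    rw [Pi.single_eq_same]
    by_cases hi : i = j0
    · subst hi
      rw [if_pos rfl, mul_one, hpj]
    · rw [if_neg hi, Pi.single_eq_of_ne hi, mul_one, zero_add]

/-- The splitting theorem. -/
theorem splitting (b0 b1 : Basis ι (RatFunc k) V) :
    ∃ (w : Basis ι (RatFunc k) V) (e : ι → ℤ), SameFin b0 w ∧
      ∀ x, (∀ i, vi k (b1.repr x i) ≤ 1) ↔ ∀ i, vi k (w.repr x i) ≤ exp (e i) := by
  classical
  let Good : ℤ → Prop := fun s => ∃ (w : Basis ι (RatFunc k) V) (a : ι → ℤ), SameFin b0 w ∧
    (∀ j i, vi k (b1.repr (w j) i) ≤ exp (a j)) ∧ ∑ j, a j = s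
  have hex : ∃ s, Good s := by
    have : ∀ j, ∃ a : ℤ, ∀ i, vi k (b1.repr (b0 j) i) ≤ exp a := by
      intro j
      have h1 : ∀ i, ∃ a : ℤ, vi k (b1.repr (b0 j) i) ≤ exp a := by
        intro i
        by_cases h : b1.repr (b0 j) i = 0
        · exact ⟨0, by rw [h]; simp⟩
        · exact ⟨_, (vi_of_nonzero h).le⟩
      choose a ha using h1
      rcases isEmpty_or_nonempty ι with he | he
      · exact ⟨0, fun i => (he.false i).elim⟩
      · refine ⟨Finset.univ.sup' Finset.univ_nonempty a, fun i => (ha i).trans ?_⟩
        exact exp_le_exp.2 (Finset.le_sup' a (Finset.mem_univ i))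
    choose a ha using this
    exact ⟨∑ j, a j, b0, a, SameFin.refl _, ha, rfl⟩
  have hdet : ∀ w : Basis ι (RatFunc k) V, SameFin b0 w → vi k (b1.det w) = vi k (b1.det b0) := by
    intro w hw
    have h1 : b1.det w = b1.det b0 * b0.det w := by
      rw [Basis.det_apply, Basis.det_apply, Basis.det_apply, ← Matrix.det_mul,
        Basis.toMatrix_mul_toMatrix]
    rw [h1, map_mul, hw.vi_det, mul_one]
  have hne : b1.det b0 ≠ 0 := by
    have h3 : b1.det b0 * b0.det b1 = 1 := by
      rw [Basis.det_apply, Basis.det_apply, ← Matrix.det_mul, Basis.toMatrix_mul_toMatrix_flip,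
        Matrix.det_one]
    exact left_ne_zero_of_mul_eq_one h3
  have hbd : ∀ s, Good s → (b1.det b0).intDegree ≤ s := by
    rintro s ⟨w, a, hw, ha, rfl⟩
    have h1 : vi k (b1.det w) ≤ exp (∑ j, a j) := by
      rw [Basis.det_apply]
      exact vi_det_le fun i j => by
        rw [Basis.toMatrix_apply]
        exact ha j i
    rw [hdet w hw, vi_of_nonzero hne] at h1
    exact exp_le_exp.1 h1
  obtain ⟨s, ⟨w, a, hw, ha, rfl⟩, hmin⟩ := Int.exists_least_of_bdd ⟨_, hbd⟩ hex
  -- the matrix of the normalised basis
  have hmem : ∀ i j, vi k ((RatFunc.X : RatFunc k) ^ (-a j) * b1.repr (w j) i) ≤ 1 := by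
    intro i j
    rw [map_mul, vi_zpow]
    calc _ ≤ exp (-a j) * exp (a j) := by gcongr; exact ha j i
      _ = 1 := by rw [← exp_add]; simp
  let C : Matrix ι ι (vi k).integer := Matrix.of fun i j => ⟨_, hmem i j⟩
  have hC : ∀ i j, ((C i j : (vi k).integer) : RatFunc k) =
    (RatFunc.X : RatFunc k) ^ (-a j) * b1.repr (w j) i := fun i j => rfl
  have hunit : IsUnit C.det := by
    by_contra hnot
    have h1 : vi k ((C.det : (vi k).integer) : RatFunc k) < 1 := by
      by_contra h2
      apply hnot
      have h3 : vi k ((C.det : (vi k).integer) : RatFunc k) = 1 :=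
        le_antisymm C.det.2 (not_lt.1 h2)
      exact (Valuation.integer.integers (vi k)).isUnit_iff_valuation_eq_one.2 h3
    have h2 : (res.mapMatrix C).det = 0 := by
      rw [← RingHom.map_det]
      exact (res_eq_zero_iff _).2 h1
    obtain ⟨c, hc0, hc⟩ := Matrix.exists_mulVec_eq_zero_iff.2 h2
    have hsum : ∀ i, vi k (∑ j, (RatFunc.X : RatFunc k) ^ (-a j) * b1.repr (w j) i *
        RatFunc.C (c j)) < 1 := by
      intro i
      have h4 := congrFun hc i
      rw [Matrix.mulVec, dotProduct] at h4
      simp only [RingHom.mapMatrix_apply, Matrix.map_apply, Pi.zero_apply] at h4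
      have h5 : ∑ j, (RatFunc.X : RatFunc k) ^ (-a j) * b1.repr (w j) i * RatFunc.C (c j) =
          ∑ j, (((C i j : (vi k).integer) : RatFunc k) - RatFunc.C (res (C i j))) *
            RatFunc.C (c j) := by
        have h6 : ∑ j, (RatFunc.C (res (C i j)) * RatFunc.C (c j) : RatFunc k) = 0 := by
          rw [← map_zero (RatFunc.C : k →+* RatFunc k), ← h4, map_sum]
          exact Finset.sum_congr rfl fun j _ => (map_mul _ _ _).symm
        rw [← sub_zero (∑ j, (RatFunc.X : RatFunc k) ^ (-a j) * b1.repr (w j) i *
          RatFunc.C (c j)), ← h6, ← Finset.sum_sub_distrib]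
        refine Finset.sum_congr rfl fun j _ => ?_
        rw [hC]
        ring
      rw [h5]
      refine Valuation.map_sum_lt _ one_ne_zero fun j _ => ?_
      rw [map_mul]
      exact (mul_le_of_le_one_right' (vi_C_le _)).trans_lt (res_spec _)
    -- choose the index
    have hne' : (Finset.univ.filter fun j => c j ≠ 0).Nonempty := by
      obtain ⟨j, hj⟩ := Function.ne_iff.1 hc0
      exact ⟨j, by simpa using hj⟩
    obtain ⟨j0, hj0, hmax⟩ := Finset.exists_max_image _ a hne'
    have hcj0 : c j0 ≠ 0 := by simpa using hj0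
    let p : ι → RatFunc k := fun j => RatFunc.C (c j) * (RatFunc.X : RatFunc k) ^ (a j0 - a j)
    have hp : ∀ j, IsPoly (p j) := by
      intro j
      by_cases hj : c j = 0
      · change IsPoly (RatFunc.C (c j) * _)
        rw [hj]
        simpa using isPoly_zero
      · refine (isPoly_C _).mul (isPoly_X_zpow ?_)
        have := hmax j (by simpa using hj)
        omega
    have hpj : p j0 = RatFunc.C (c j0) := by
      change RatFunc.C (c j0) * (RatFunc.X : RatFunc k) ^ (a j0 - a j0) = _
      rw [sub_self, zpow_zero, mul_one]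
    obtain ⟨w', hw', hne2, heq⟩ := exists_change w j0 (c j0) hcj0 p hp hpj
    have hgood : Good (∑ j, a j - 1) := by
      refine ⟨w', Function.update a j0 (a j0 - 1), fun x => (hw x).trans (hw' x), ?_, ?_⟩
      · intro j i
        by_cases hj : j = j0
        · subst hj
          rw [Function.update_self, heq, ← lt_exp_iff]
          have h7 : b1.repr (∑ j', p j' • w j') i = (RatFunc.X : RatFunc k) ^ (a j) *
              ∑ j', (RatFunc.X : RatFunc k) ^ (-a j') * b1.repr (w j') i * RatFunc.C (c j') := by
            rw [map_sum, Finsupp.finsetSum_apply, Finset.mul_sum]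
            refine Finset.sum_congr rfl fun j' _ => ?_
            rw [map_smul, Finsupp.smul_apply, smul_eq_mul]
            change RatFunc.C (c j') * (RatFunc.X : RatFunc k) ^ (a j - a j') * _ = _
            rw [sub_eq_add_neg, zpow_add₀ RatFunc.X_ne_zero]
            ring
          rw [h7, map_mul, vi_zpow]
          calc _ < exp (a j) * 1 := by
                apply mul_lt_mul_of_pos_left (hsum i)
                exact exp_pos
            _ = _ := mul_one _
        · rw [Function.update_of_ne hj, hne2 j hj]
          exact ha j i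
      · rw [Finset.sum_update_of_mem (Finset.mem_univ j0)]
        rw [← Finset.sum_sdiff (Finset.subset_univ {j0}), Finset.sum_singleton]
        ring
    have := hmin _ hgood
    omega
  refine ⟨w, fun j => -a j, hw, fun x => ?_⟩
  have hexp : ∀ i, b1.repr x i = ∑ j, ((C i j : (vi k).integer) : RatFunc k) *
      ((RatFunc.X : RatFunc k) ^ (a j) * w.repr x j) := by
    intro i
    conv_lhs => rw [← w.sum_repr x]
    rw [map_sum, Finsupp.finsetSum_apply]
    refine Finset.sum_congr rfl fun j _ => ?_
    rw [map_smul, Finsupp.smul_apply, smul_eq_mul, hC]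
    have : (RatFunc.X : RatFunc k) ^ (-a j) * (RatFunc.X : RatFunc k) ^ (a j) = 1 := by
      rw [← zpow_add₀ RatFunc.X_ne_zero]
      simp
    linear_combination (-(b1.repr (w j) i) * w.repr x j) * this
  have hconv : ∀ j, (vi k (w.repr x j) ≤ exp (-a j)) ↔
      vi k ((RatFunc.X : RatFunc k) ^ (a j) * w.repr x j) ≤ 1 := by
    intro j
    rw [map_mul, vi_zpow]
    constructor
    · intro h
      calc _ ≤ exp (a j) * exp (-a j) := by gcongr
        _ = 1 := by rw [← exp_add]; simp
    · intro h
      calc vi k (w.repr x j) = exp (-a j) * (exp (a j) * vi k (w.repr x j)) := by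
            rw [← mul_assoc, ← exp_add]; simp
        _ ≤ exp (-a j) * 1 := by gcongr
        _ = _ := mul_one _
  constructor
  · intro h j
    rw [hconv]
    let y : ι → (vi k).integer := fun i => ⟨b1.repr x i, h i⟩
    have h1 : ∀ j, ((C⁻¹.mulVec y j : (vi k).integer) : RatFunc k) =
        (RatFunc.X : RatFunc k) ^ (a j) * w.repr x j := by
      have h2 : ∀ i, ∑ j, ((C i j : (vi k).integer) : RatFunc k) *
          (((C⁻¹.mulVec y j : (vi k).integer) : RatFunc k) -
            (RatFunc.X : RatFunc k) ^ (a j) * w.repr x j) = 0 := by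
        intro i
        simp only [mul_sub, Finset.sum_sub_distrib]
        rw [← hexp i]
        have h3 : C.mulVec (C⁻¹.mulVec y) = y := by
          rw [Matrix.mulVec_mulVec, Matrix.mul_nonsing_inv _ hunit, Matrix.one_mulVec]
        have h4 := congrArg (fun z : (vi k).integer => (z : RatFunc k)) (congrFun h3 i)
        simp only [Matrix.mulVec, dotProduct] at h4
        push_cast at h4
        rw [sub_eq_zero]
        simpa [Matrix.mulVec, dotProduct] using h4
      have h5 : (C.map (fun z : (vi k).integer => (z : RatFunc k))).mulVec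
          (fun j => ((C⁻¹.mulVec y j : (vi k).integer) : RatFunc k) -
            (RatFunc.X : RatFunc k) ^ (a j) * w.repr x j) = 0 := by
        ext i
        simpa [Matrix.mulVec, dotProduct] using h2 i
      have h6 : (C.map (fun z : (vi k).integer => (z : RatFunc k))).det ≠ 0 := by
        have h7 : (C.map (fun z : (vi k).integer => (z : RatFunc k))).det =
            ((C.det : (vi k).integer) : RatFunc k) := by
          exact (RingHom.map_det (Subring.subtype _) C).symm
        rw [h7]
        intro h8
        have : C.det = 0 := Subtype.ext h8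
        rw [this] at hunit
        exact not_isUnit_zero hunit
      have h9 := Matrix.eq_zero_of_mulVec_eq_zero h6 h5
      intro j
      exact sub_eq_zero.1 (congrFun h9 j)
    rw [← h1]
    exact (C⁻¹.mulVec y j).2
  · intro h i
    rw [hexp]
    refine Valuation.map_sum_le _ fun j _ => ?_
    rw [map_mul]
    exact mul_le_one' (C i j).2 ((hconv j).1 (h j))

end H248
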