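import Pool.Agent.H248R3.P2

/-!
Polynomial parts and coefficients at infinity.
-/

set_option autoImplicit false

open Polynomial WithZero Module

namespace H248

variable {k : Type*} [Field k]

theorem pol_unique {f : RatFunc k} {p q : k[X]}
    (hp : vi k (f - algebraMap k[X] (RatFunc k) p) < 1)
    (hq : vi k (f - algebraMap k[X] (RatFunc k) q) < 1) : p = q := by
  have h1 : vi k (algebraMap k[X] (RatFunc k) (p - q)) < 1 := by
    have : algebraMap k[X] (RatFunc k) (p - q) = (f - algebraMap k[X] (RatFunc k) q) -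
        (f - algebraMap k[X] (RatFunc k) p) := by
      rw [map_sub]; ring
    rw [this]
    exact (Valuation.map_sub _ _ _).trans_lt (max_lt hq hp)
  have h2 := isPoly_eq_zero ⟨_, rfl⟩ h1
  have h3 : p - q = 0 := (map_eq_zero_iff _ (RatFunc.algebraMap_injective k)).1 h2
  exact sub_eq_zero.1 h3

theorem alg_k_eq (c : k) : algebraMap k (RatFunc k) c = RatFunc.C c := rfl

/-- the polynomial part -/
noncomputable def pol : RatFunc k →ₗ[k] k[X] where
  toFun f := (exists_poly f).choose
  map_add' f g := by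
    apply pol_unique (f := f + g) (exists_poly (f + g)).choose_spec
    have : f + g - algebraMap k[X] (RatFunc k) ((exists_poly f).choose + (exists_poly g).choose) =
      (f - algebraMap k[X] (RatFunc k) (exists_poly f).choose) +
      (g - algebraMap k[X] (RatFunc k) (exists_poly g).choose) := by
      rw [map_add]; ring
    rw [this]
    exact (Valuation.map_add _ _ _).trans_lt
      (max_lt (exists_poly f).choose_spec (exists_poly g).choose_spec)
  map_smul' c f := by
    apply pol_unique (f := c • f) (exists_poly (c • f)).choose_spec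
    have : c • f - algebraMap k[X] (RatFunc k) (c • (exists_poly f).choose) =
      RatFunc.C c * (f - algebraMap k[X] (RatFunc k) (exists_poly f).choose) := by
      rw [Polynomial.smul_eq_C_mul, map_mul, Algebra.smul_def, alg_k_eq]
      simp
      ring
    simp only [RingHom.id_apply]
    rw [this, map_mul]
    exact (mul_le_of_le_one_left' (vi_C_le c)).trans_lt (exists_poly f).choose_spec

theorem pol_spec (f : RatFunc k) : vi k (f - algebraMap k[X] (RatFunc k) (pol f)) < 1 :=
  (exists_poly f).choose_spec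

theorem pol_eq {f : RatFunc k} {p : k[X]}
    (hp : vi k (f - algebraMap k[X] (RatFunc k) p) < 1) : pol f = p :=
  pol_unique (pol_spec f) hp

theorem pol_algebraMap (p : k[X]) : pol (algebraMap k[X] (RatFunc k) p) = p :=
  pol_eq (by simp)

theorem pol_eq_zero {f : RatFunc k} (h : vi k f < 1) : pol f = 0 :=
  pol_eq (by simpa using h)

/-- multiplication by a power of `t` -/
noncomputable def mulX (n : ℤ) : RatFunc k →ₗ[k] RatFunc k :=
  LinearMap.mulLeft k ((RatFunc.X : RatFunc k) ^ n)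

/-- the coefficient of `t ^ n` in the expansion at infinity -/
noncomputable def cf (n : ℤ) : RatFunc k →ₗ[k] k :=
  (Polynomial.lcoeff k 0) ∘ₗ pol ∘ₗ mulX (-n)

theorem cf_apply (n : ℤ) (f : RatFunc k) :
    cf n f = (pol ((RatFunc.X : RatFunc k) ^ (-n) * f)).coeff 0 := rfl

theorem vi_X_mul (n : ℤ) (f : RatFunc k) :
    vi k ((RatFunc.X : RatFunc k) ^ n * f) = exp n * vi k f := by
  rw [map_mul, vi_zpow]

theorem exp_mul_le {n m : ℤ} {x : ℤᵐ⁰} : exp n * x ≤ exp m ↔ x ≤ exp (m - n) := by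
  constructor
  · intro h
    calc x = exp (-n) * (exp n * x) := by rw [← mul_assoc, ← exp_add]; simp
      _ ≤ exp (-n) * exp m := by gcongr
      _ = _ := by rw [← exp_add]; congr 1; ring
  · intro h
    calc exp n * x ≤ exp n * exp (m - n) := by gcongr
      _ = _ := by rw [← exp_add]; congr 1; ring

theorem exp_mul_le_one {n : ℤ} {x : ℤᵐ⁰} : exp n * x ≤ 1 ↔ x ≤ exp (-n) := by
  rw [← exp_zero, exp_mul_le, zero_sub]

theorem exp_mul_lt_one {n : ℤ} {x : ℤᵐ⁰} : exp n * x < 1 ↔ x < exp (-n) := by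
  rw [← exp_zero, lt_exp_iff, exp_mul_le, lt_exp_iff]
  constructor
  · intro h; convert h using 2; ring
  · intro h; convert h using 2; ring

theorem cf_eq_zero_of_lt {n : ℤ} {f : RatFunc k} (h : vi k f < exp n) : cf n f = 0 := by
  rw [cf_apply, pol_eq_zero, Polynomial.coeff_zero]
  rw [vi_X_mul, exp_mul_lt_one, neg_neg]
  exact h

theorem cf_eq_zero_of_isPoly {n : ℤ} (hn : n < 0) {f : RatFunc k} (h : IsPoly f) : cf n f = 0 := by
  obtain ⟨p, rfl⟩ := h
  obtain ⟨m, hm⟩ := Int.eq_ofNat_of_zero_le (show 0 ≤ -n - 1 by omega)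
  have h1 : (RatFunc.X : RatFunc k) ^ (-n) * algebraMap k[X] (RatFunc k) p =
      algebraMap k[X] (RatFunc k) (Polynomial.X ^ (m + 1) * p) := by
    rw [map_mul, map_pow, RatFunc.algebraMap_X, ← zpow_natCast]
    congr 2
    push_cast
    omega
  rw [cf_apply, h1, pol_algebraMap, pow_succ', mul_assoc, Polynomial.mul_coeff_zero,
    Polynomial.coeff_X_zero, zero_mul]

theorem cf_mul_X (n m : ℤ) (f : RatFunc k) :
    cf n ((RatFunc.X : RatFunc k) ^ m * f) = cf (n - m) f := by
  rw [cf_apply, cf_apply, ← mul_assoc, ← zpow_add₀ RatFunc.X_ne_zero]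
  congr 3
  congr 1
  ring

theorem vi_le_of_cf {n : ℤ} {f : RatFunc k} (h : vi k f ≤ exp n) (h0 : cf n f = 0) :
    vi k f ≤ exp (n - 1) := by
  rw [← lt_exp_iff]
  have h1 : vi k ((RatFunc.X : RatFunc k) ^ (-n) * f) ≤ 1 := by
    rw [vi_X_mul, exp_mul_le_one, neg_neg]
    exact h
  obtain ⟨c, hc⟩ := exists_const h1
  have h2 : pol ((RatFunc.X : RatFunc k) ^ (-n) * f) = Polynomial.C c :=
    pol_eq (by simpa using hc)
  rw [cf_apply, h2, Polynomial.coeff_C_zero] at h0
  rw [h0, map_zero, sub_zero, vi_X_mul, exp_mul_lt_one, neg_neg] at hc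
  exact hc

/-- iteration: if the coefficients of `t ^ n, ..., t ^ (n - m + 1)` vanish -/
theorem vi_le_of_cf' {n : ℤ} (m : ℕ) {f : RatFunc k} (h : vi k f ≤ exp n)
    (h0 : ∀ j : ℕ, j < m → cf (n - j) f = 0) : vi k f ≤ exp (n - m) := by
  induction m with
  | zero => simpa using h
  | succ m ih =>
    have h1 := ih fun j hj => h0 j (by omega)
    have h2 := vi_le_of_cf h1 (h0 m (by omega))
    convert h2 using 2
    push_cast
    ring

theorem eq_zero_of_forall_le {f : RatFunc k} (h : ∀ n : ℕ, vi k f ≤ exp (-(n : ℤ))) : f = 0 := by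
  by_contra h0
  have h1 := h (f.intDegree.natAbs + 1)
  rw [vi_of_nonzero h0] at h1
  have h2 := exp_le_exp.1 h1
  push_cast at h2
  have h3 := neg_abs_le f.intDegree
  linarith

/-- an element all of whose negative coefficients vanish is a polynomial -/
theorem isPoly_of_cf {f : RatFunc k} (h : ∀ n : ℤ, n < 0 → cf n f = 0) : IsPoly f := by
  refine ⟨pol f, ?_⟩
  have h1 : f - algebraMap k[X] (RatFunc k) (pol f) = 0 := by
    apply eq_zero_of_forall_le
    intro n
    have h2 : vi k (f - algebraMap k[X] (RatFunc k) (pol f)) ≤ exp (-1) := by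
      have := pol_spec f
      rw [← exp_zero, lt_exp_iff] at this
      simpa using this
    have h3 := vi_le_of_cf' n h2 (fun j _ => by
      rw [map_sub, h _ (by omega), cf_eq_zero_of_isPoly (by omega) ⟨_, rfl⟩, sub_zero])
    refine h3.trans (exp_le_exp.2 (by omega))
  exact (sub_eq_zero.1 h1).symm

/-- an element all of whose coefficients of `t ^ m` with `m > n` vanish -/
theorem vi_le_of_cf_gt {f : RatFunc k} {n : ℤ} (h : ∀ m : ℤ, n < m → cf m f = 0) :
    vi k f ≤ exp n := by
  by_cases h0 : f = 0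
  · simp [h0]
  · rw [vi_of_nonzero h0, exp_le_exp]
    by_contra h1
    push Not at h1
    have h2 := vi_le_of_cf (vi_of_nonzero h0).le (h _ h1)
    rw [vi_of_nonzero h0, exp_le_exp] at h2
    omega

/-! ### the Euler characteristic of a pair of subspaces -/

open Cardinal in
theorem euler {K : Type*} [AddCommGroup K] [Module k K] (A0 A1 P0 P1 : Submodule k K)
    (h0 : A0 ≤ P0) (h1 : A1 ≤ P1) :
    Module.rank k (P0 ⧸ A0.submoduleOf P0) + Module.rank k (P1 ⧸ A1.submoduleOf P1) +
      (Module.rank k (A0 ⊓ A1 : Submodule k K) + Module.rank k (K ⧸ (P0 ⊔ P1))) =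
      Module.rank k (P0 ⊓ P1 : Submodule k K) + Module.rank k (K ⧸ (A0 ⊔ A1)) := by
  -- the map to the quotient
  let f0 : (P0 ⧸ A0.submoduleOf P0) →ₗ[k] (K ⧸ (A0 ⊔ A1)) :=
    (A0.submoduleOf P0).mapQ (A0 ⊔ A1) P0.subtype (by
      intro x hx
      exact Submodule.mem_sup_left hx)
  let f1 : (P1 ⧸ A1.submoduleOf P1) →ₗ[k] (K ⧸ (A0 ⊔ A1)) :=
    (A1.submoduleOf P1).mapQ (A0 ⊔ A1) P1.subtype (by
      intro x hx
      exact Submodule.mem_sup_right hx)
  let f : (P0 ⧸ A0.submoduleOf P0) × (P1 ⧸ A1.submoduleOf P1) →ₗ[k] (K ⧸ (A0 ⊔ A1)) :=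
    f0.coprod (-f1)
  let θ : (P0 ⊓ P1 : Submodule k K) →ₗ[k]
      (P0 ⧸ A0.submoduleOf P0) × (P1 ⧸ A1.submoduleOf P1) :=
    ((A0.submoduleOf P0).mkQ ∘ₗ Submodule.inclusion inf_le_left).prod
      ((A1.submoduleOf P1).mkQ ∘ₗ Submodule.inclusion inf_le_right)
  let π : (K ⧸ (A0 ⊔ A1)) →ₗ[k] (K ⧸ (P0 ⊔ P1)) :=
    Submodule.factor (sup_le_sup h0 h1)
  have hex1 : LinearMap.range θ = LinearMap.ker f := by
    ext ⟨x, y⟩
    constructor
    · rintro ⟨z, hz⟩
      rw [← hz, LinearMap.mem_ker]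
      change (Submodule.Quotient.mk (z : K) : K ⧸ (A0 ⊔ A1)) + -(Submodule.Quotient.mk (z : K)) = 0
      exact add_neg_cancel _
    · intro h
      obtain ⟨x, rfl⟩ := Submodule.Quotient.mk_surjective _ x
      obtain ⟨y, rfl⟩ := Submodule.Quotient.mk_surjective _ y
      rw [LinearMap.mem_ker] at h
      change (Submodule.Quotient.mk (x : K) : K ⧸ (A0 ⊔ A1)) + -(Submodule.Quotient.mk (y : K)) = 0
        at h
      rw [← sub_eq_add_neg, ← Submodule.Quotient.mk_sub, Submodule.Quotient.mk_eq_zero,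
        Submodule.mem_sup] at h
      obtain ⟨a, ha, b, hb, hab⟩ := h
      have h2 : (x : K) - a = y + b := by
        rw [sub_eq_iff_eq_add, add_assoc, add_comm b a, hab]
        abel
      refine ⟨⟨(x : K) - a, P0.sub_mem x.2 (h0 ha), ?_⟩, ?_⟩
      · rw [h2]
        exact P1.add_mem y.2 (h1 hb)
      · apply Prod.ext
        · change (Submodule.Quotient.mk (⟨(x : K) - a, _⟩ : P0) : P0 ⧸ A0.submoduleOf P0) = _
          rw [Submodule.Quotient.eq]
          change (x : K) - a - x ∈ A0
          have : (x : K) - a - x = -a := by abel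
          rw [this]
          exact A0.neg_mem ha
        · change (Submodule.Quotient.mk (⟨(x : K) - a, _⟩ : P1) : P1 ⧸ A1.submoduleOf P1) = _
          rw [Submodule.Quotient.eq]
          change (x : K) - a - y ∈ A1
          have : (x : K) - a - y = b := by rw [h2]; abel
          rw [this]
          exact hb
  have hex2 : LinearMap.range f = LinearMap.ker π := by
    ext q
    obtain ⟨q, rfl⟩ := Submodule.Quotient.mk_surjective _ q
    constructor
    · rintro ⟨⟨x, y⟩, hxy⟩
      obtain ⟨x, rfl⟩ := Submodule.Quotient.mk_surjective _ x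
      obtain ⟨y, rfl⟩ := Submodule.Quotient.mk_surjective _ y
      rw [← hxy, LinearMap.mem_ker]
      change π ((Submodule.Quotient.mk (x : K) : K ⧸ (A0 ⊔ A1)) +
        -(Submodule.Quotient.mk (y : K))) = 0
      rw [map_add, map_neg]
      change (Submodule.Quotient.mk (x : K) : K ⧸ (P0 ⊔ P1)) + -(Submodule.Quotient.mk (y : K)) = 0
      rw [(Submodule.Quotient.mk_eq_zero _).2 (Submodule.mem_sup_left x.2),
        (Submodule.Quotient.mk_eq_zero _).2 (Submodule.mem_sup_right y.2)]
      simp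
    · intro h
      rw [LinearMap.mem_ker] at h
      change (Submodule.Quotient.mk q : K ⧸ (P0 ⊔ P1)) = 0 at h
      rw [Submodule.Quotient.mk_eq_zero, Submodule.mem_sup] at h
      obtain ⟨a, ha, b, hb, hab⟩ := h
      refine ⟨(Submodule.Quotient.mk ⟨a, ha⟩, Submodule.Quotient.mk ⟨-b, P1.neg_mem hb⟩), ?_⟩
      change (Submodule.Quotient.mk a : K ⧸ (A0 ⊔ A1)) + -(Submodule.Quotient.mk (-b)) = _
      rw [← Submodule.Quotient.mk_neg, ← Submodule.Quotient.mk_add, neg_neg, hab]
  have hker : Module.rank k (LinearMap.ker θ) = Module.rank k (A0 ⊓ A1 : Submodule k K) := by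
    have hle : A0 ⊓ A1 ≤ P0 ⊓ P1 := inf_le_inf h0 h1
    have : LinearMap.ker θ = (A0 ⊓ A1).submoduleOf (P0 ⊓ P1) := by
      ext z
      rw [LinearMap.mem_ker]
      change ((Submodule.Quotient.mk (⟨z, z.2.1⟩ : P0) : P0 ⧸ A0.submoduleOf P0),
        (Submodule.Quotient.mk (⟨z, z.2.2⟩ : P1) : P1 ⧸ A1.submoduleOf P1)) = (0, 0) ↔ _
      rw [Prod.mk.injEq, Submodule.Quotient.mk_eq_zero, Submodule.Quotient.mk_eq_zero]
      rfl
    rw [this]
    exact (Submodule.submoduleOfEquivOfLe hle).rank_eq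
  have hπ : Function.Surjective π := Submodule.factor_surjective _
  have e1 := LinearMap.rank_range_add_rank_ker f
  have e2 := LinearMap.rank_range_add_rank_ker θ
  have e3 := LinearMap.rank_range_add_rank_ker π
  rw [rank_range_of_surjective π hπ, ← hex2] at e3
  rw [hex1, hker] at e2
  rw [rank_prod'] at e1
  rw [← e1, ← e2, ← e3]
  ac_rfl

end H248
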