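import Pool.Agent.H248R3.P3
import Pool.Agent.H248R3.Defs

/-!
The local ring at infinity; integral closures; Dedekind lemma.
-/

set_option autoImplicit false

open Polynomial WithZero Module
open scoped nonZeroDivisors

namespace H248

variable {k : Type*} [Field k]

theorem mem_infRing {f : RatFunc k} : f ∈ infRing k ↔ vi k f ≤ 1 := by
  change (f = 0 ∨ f.intDegree ≤ 0) ↔ _
  by_cases h : f = 0
  · simp [h]
  · rw [vi_of_nonzero h, ← exp_zero, exp_le_exp]
    simp [h]

theorem deg_le_iff {f : RatFunc k} {n : ℤ} : (f = 0 ∨ f.intDegree ≤ n) ↔ vi k f ≤ exp n := by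
  by_cases h : f = 0
  · simp [h]
  · rw [vi_of_nonzero h, exp_le_exp]
    simp [h]

theorem integers_infRing : (vi k).Integers (infRing k) where
  hom_inj := Subtype.val_injective
  map_le_one x := mem_infRing.1 x.2
  exists_of_le_one _ hr := ⟨⟨_, mem_infRing.2 hr⟩, rfl⟩

instance : IsFractionRing (infRing k) (RatFunc k) := integers_infRing.isFractionRing

instance : IsPrincipalIdealRing (infRing k) where
  principal I := by
    classical
    by_cases hI : I = ⊥
    · rw [hI]; infer_instance
    obtain ⟨x, hx, hx0⟩ := Submodule.exists_mem_ne_zero_of_ne_bot hI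
    have hex : ∃ n : ℕ, ∃ f ∈ I, f ≠ 0 ∧ vi k (f : RatFunc k) = exp (-(n : ℤ)) := by
      have h1 : (x : RatFunc k) ≠ 0 := fun h => hx0 (Subtype.ext h)
      have h2 := mem_infRing.1 x.2
      rw [vi_of_nonzero h1, ← exp_zero, exp_le_exp] at h2
      refine ⟨(-(x : RatFunc k).intDegree).toNat, x, hx, hx0, ?_⟩
      rw [vi_of_nonzero h1]
      congr 1
      omega
    obtain ⟨f, hf, hf0, hfv⟩ := Nat.find_spec hex
    refine ⟨⟨f, le_antisymm ?_ ?_⟩⟩
    · intro g hg
      rw [Ideal.submodule_span_eq, Ideal.mem_span_singleton]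
      by_cases hg0 : g = 0
      · rw [hg0]; exact dvd_zero _
      have h1 : (g : RatFunc k) ≠ 0 := fun h => hg0 (Subtype.ext h)
      have h2 := mem_infRing.1 g.2
      rw [vi_of_nonzero h1, ← exp_zero, exp_le_exp] at h2
      have h3 := Nat.find_min' hex (m := (-(g : RatFunc k).intDegree).toNat)
        ⟨g, hg, hg0, by rw [vi_of_nonzero h1]; congr 1; omega⟩
      apply integers_infRing.dvd_of_le
      change vi k (g : RatFunc k) ≤ vi k (f : RatFunc k)
      rw [hfv, vi_of_nonzero h1, exp_le_exp]
      have h4 : ((Nat.find hex : ℕ) : ℤ) ≤ ((-(g : RatFunc k).intDegree).toNat : ℤ) := by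
        exact_mod_cast h3
      rw [Int.toNat_of_nonneg (by omega)] at h4
      linarith
    · rw [Ideal.submodule_span_eq, Ideal.span_singleton_le_iff_mem]
      exact hf

section integral

variable (A F K : Type*) [CommRing A] [IsDomain A] [IsPrincipalIdealRing A] [Field F] [Algebra A F]
  [IsFractionRing A F] [Field K] [Algebra F K] [Algebra A K] [IsScalarTower A F K]
  [FiniteDimensional F K] [Algebra.IsSeparable F K]

theorem exists_integral_basis : ∃ b : Basis (Fin (finrank F K)) F K,
    ∀ x : K, IsIntegral A x ↔ ∀ i, b.repr x i ∈ Set.range (algebraMap A F) := by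
  have : IsTorsionFree A K := by
    have : FaithfulSMul A K := by
      rw [faithfulSMul_iff_algebraMap_injective, IsScalarTower.algebraMap_eq A F K]
      exact (algebraMap F K).injective.comp (IsFractionRing.injective A F)
    infer_instance
  have : IsLocalization (Algebra.algebraMapSubmonoid (integralClosure A K) A⁰) K :=
    IsIntegralClosure.isLocalization_of_isSeparable A F K (integralClosure A K)
  have : Module.Free A (integralClosure A K) :=
    IsIntegralClosure.module_free A F K (integralClosure A K)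
  have : Module.Finite A (integralClosure A K) :=
    IsIntegralClosure.finite A F K (integralClosure A K)
  have hr : finrank A (integralClosure A K) = finrank F K :=
    IsIntegralClosure.rank A F K (integralClosure A K)
  let b0 : Basis (Fin (finrank F K)) A (integralClosure A K) := Module.finBasisOfFinrankEq _ _ hr
  refine ⟨b0.localizationLocalization F A⁰ K, fun x => ⟨fun hx i => ?_, fun hx => ?_⟩⟩
  · have h1 := b0.localizationLocalization_repr_algebraMap F A⁰ K ⟨x, hx⟩ i
    exact ⟨_, h1.symm⟩
  · rw [← (b0.localizationLocalization F A⁰ K).sum_repr x]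
    refine IsIntegral.sum _ fun i _ => ?_
    obtain ⟨a, ha⟩ := hx i
    rw [← ha, algebraMap_smul, Algebra.smul_def]
    refine IsIntegral.mul isIntegral_algebraMap ?_
    rw [Basis.localizationLocalization_apply]
    exact (b0 i).2

end integral

theorem two_gen {B K : Type*} [CommRing B] [IsDedekindDomain B] [Field K] [Algebra B K]
    [IsFractionRing B K] (P : Submodule B K) (h1 : (1 : K) ∈ P) (c : B) (hc : c ≠ 0)
    (h : ∀ x ∈ P, ∃ b : B, algebraMap B K b = algebraMap B K c * x) :
    ∃ l ∈ P, ∀ x ∈ P, ∃ a b : B, x = algebraMap B K a + algebraMap B K b * l := by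
  have hc' : algebraMap B K c ≠ 0 := by
    simpa using hc
  let I : Ideal B :=
    { carrier := {b | (algebraMap B K c)⁻¹ * algebraMap B K b ∈ P}
      add_mem' := by
        intro x y hx hy
        change _ * algebraMap B K (x + y) ∈ P
        rw [map_add, mul_add]
        exact P.add_mem hx hy
      zero_mem' := by
        change _ * algebraMap B K 0 ∈ P
        rw [map_zero, mul_zero]
        exact P.zero_mem
      smul_mem' := by
        intro r x hx
        change _ * algebraMap B K (r * x) ∈ P
        have : (algebraMap B K c)⁻¹ * algebraMap B K (r * x) =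
            r • ((algebraMap B K c)⁻¹ * algebraMap B K x) := by
          rw [map_mul, Algebra.smul_def]; ring
        rw [this]
        exact P.smul_mem _ hx }
  have hI : ∀ b, b ∈ I ↔ (algebraMap B K c)⁻¹ * algebraMap B K b ∈ P := fun b => Iff.rfl
  have hJ : Ideal.span {c} ≤ I := by
    rw [Ideal.span_singleton_le_iff_mem, hI, inv_mul_cancel₀ hc']
    exact h1
  obtain ⟨a, ha⟩ := IsDedekindDomain.exists_sup_span_eq hJ (by
    rw [Ne, Ideal.zero_eq_bot, Ideal.span_singleton_eq_bot]
    exact hc)
  have haI : a ∈ I := by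
    rw [← ha]
    exact Ideal.mem_sup_right (Ideal.mem_span_singleton_self a)
  refine ⟨(algebraMap B K c)⁻¹ * algebraMap B K a, (hI a).1 haI, fun x hx => ?_⟩
  obtain ⟨b, hb⟩ := h x hx
  have hbI : b ∈ I := by
    rw [hI, hb, ← mul_assoc, inv_mul_cancel₀ hc', one_mul]
    exact hx
  rw [← ha, Submodule.mem_sup] at hbI
  obtain ⟨y, hy, z, hz, hyz⟩ := hbI
  obtain ⟨r, rfl⟩ := Ideal.mem_span_singleton'.1 hy
  obtain ⟨s, rfl⟩ := Ideal.mem_span_singleton'.1 hz
  refine ⟨r, s, ?_⟩
  have h2 : x = (algebraMap B K c)⁻¹ * algebraMap B K b := by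
    rw [hb, ← mul_assoc, inv_mul_cancel₀ hc', one_mul]
  rw [h2, ← hyz, map_add, map_mul, map_mul]
  field_simp

section const

variable {K : Type*} [Field K] [Algebra (RatFunc k) K] [Algebra k[X] K]
  [IsScalarTower k[X] (RatFunc k) K] [IsAlgClosed k]

theorem const_of_integral {x : K} (h0 : IsIntegral k[X] x) (h1 : IsIntegral (infRing k) x) :
    ∃ c : k, x = algebraMap (RatFunc k) K (RatFunc.C c) := by
  let _ : Algebra k K := ((algebraMap (RatFunc k) K).comp (algebraMap k (RatFunc k))).toAlgebra
  have : IsScalarTower k (RatFunc k) K := IsScalarTower.of_algebraMap_eq fun _ => rfl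
  have hp0 : minpoly (RatFunc k) x = (minpoly k[X] x).map (algebraMap k[X] (RatFunc k)) :=
    minpoly.isIntegrallyClosed_eq_field_fractions' (RatFunc k) h0
  have hp1 : minpoly (RatFunc k) x = (minpoly (infRing k) x).map
      (algebraMap (infRing k) (RatFunc k)) :=
    minpoly.isIntegrallyClosed_eq_field_fractions' (RatFunc k) h1
  have hcoeff : ∀ n, ∃ c : k, (minpoly (RatFunc k) x).coeff n = RatFunc.C c := by
    intro n
    have h2 : IsPoly ((minpoly (RatFunc k) x).coeff n) := by
      rw [hp0, Polynomial.coeff_map]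
      exact ⟨_, rfl⟩
    have h3 : vi k ((minpoly (RatFunc k) x).coeff n) ≤ 1 := by
      rw [hp1, Polynomial.coeff_map]
      exact mem_infRing.1 (Subtype.property _)
    obtain ⟨c, hc⟩ := exists_const h3
    refine ⟨c, ?_⟩
    have h4 := isPoly_eq_zero (h2.sub (isPoly_C c)) hc
    exact sub_eq_zero.1 h4
  have hlift : minpoly (RatFunc k) x ∈ Polynomial.lifts (algebraMap k (RatFunc k)) := by
    rw [Polynomial.lifts_iff_coeff_lifts]
    intro n
    obtain ⟨c, hc⟩ := hcoeff n
    exact ⟨c, hc.symm⟩
  have hint : IsIntegral (RatFunc k) x :=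
    (h0.tower_top : IsIntegral (RatFunc k) x)
  obtain ⟨q, hq, -, hmonic⟩ := Polynomial.lifts_and_degree_eq_and_monic hlift
    (minpoly.monic hint)
  have hk : IsIntegral k x := by
    refine ⟨q, hmonic, ?_⟩
    have h5 : Polynomial.aeval x q = 0 := by
      rw [← Polynomial.aeval_map_algebraMap (RatFunc k) x q, hq, minpoly.aeval]
    exact h5
  have hdeg : (minpoly k x).degree = 1 :=
    IsAlgClosed.degree_eq_one_of_irreducible k (minpoly.irreducible hk)
  obtain ⟨c, hc⟩ := minpoly.mem_range_of_degree_eq_one k x hdeg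
  exact ⟨c, hc.symm⟩

end const

end H248
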