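import Pool.Agent.H248R3.P5

/-!
Lattices stable under the integral closure; families of polynomials of bounded degree.
-/

set_option autoImplicit false
set_option linter.unusedSectionVars false

open Polynomial WithZero Module
open scoped nonZeroDivisors

namespace H248

section lattice

variable (A F : Type*) {K : Type*} [CommRing A] [IsDomain A] [IsPrincipalIdealRing A] [Field F]
  [Algebra A F] [IsFractionRing A F] [Field K] [Algebra F K] [Algebra A K] [IsScalarTower A F K]
  [FiniteDimensional F K] [Algebra.IsSeparable F K] {ι : Type*} [Fintype ι]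
  (u : Basis ι F K) (L : Set K)
  (hL : ∀ x, x ∈ L ↔ ∀ i, u.repr x i ∈ Set.range (algebraMap A F))
  (hst : ∀ x ∈ L, ∀ b : K, IsIntegral A b → b * x ∈ L)
  (θ : K) (hθ : θ ≠ 0) (hθL : θ ∈ L)

include hL in
theorem L_add {x y : K} (hx : x ∈ L) (hy : y ∈ L) : x + y ∈ L := by
  rw [hL] at hx hy ⊢
  intro i
  obtain ⟨a, ha⟩ := hx i
  obtain ⟨b, hb⟩ := hy i
  exact ⟨a + b, by rw [map_add, ha, hb, map_add, Finsupp.add_apply]⟩

include hL in
theorem L_zero : (0 : K) ∈ L := by
  rw [hL]
  intro i
  exact ⟨0, by simp⟩

include hL hst hθ hθL in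
theorem lattice_two_gen : ∃ l : K, θ * l ∈ L ∧ ∀ x : K, θ * x ∈ L →
    ∃ a b : K, IsIntegral A a ∧ IsIntegral A b ∧ x = a + b * l := by
  have hDed : IsDedekindDomain (integralClosure A K) := integralClosure.isDedekindDomain A F K
  have hFr : IsFractionRing (integralClosure A K) K :=
    integralClosure.isFractionRing_of_finite_extension F K
  classical
  obtain ⟨a, ha0, ha⟩ := exists_integral_multiples A F
    (Finset.univ.image fun i => θ⁻¹ * u i)
  have hinj : Function.Injective (algebraMap A K) := by
    rw [IsScalarTower.algebraMap_eq A F K]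
    exact (algebraMap F K).injective.comp (IsFractionRing.injective A F)
  let P : Submodule (integralClosure A K) K :=
    { carrier := {x | θ * x ∈ L}
      add_mem' := by
        intro x y hx hy
        change θ * (x + y) ∈ L
        rw [mul_add]
        exact L_add A F u L hL hx hy
      zero_mem' := by
        change θ * 0 ∈ L
        rw [mul_zero]
        exact L_zero A F u L hL
      smul_mem' := by
        intro b x hx
        change θ * (b • x) ∈ L
        have : θ * (b • x) = (b : K) * (θ * x) := by
          rw [Algebra.smul_def]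
          change θ * ((b : K) * x) = _
          ring
        rw [this]
        exact hst _ hx _ b.2 }
  obtain ⟨l, hl, hl2⟩ := two_gen P (by change θ * 1 ∈ L; rwa [mul_one])
    (algebraMap A (integralClosure A K) a) (by
      intro h
      apply ha0
      apply hinj
      have := congrArg (fun z : integralClosure A K => (z : K)) h
      simpa using this) (by
      intro x hx
      have h1 : IsIntegral A (a • x) := by
        have hx' : θ * x ∈ L := hx
        rw [hL] at hx'
        choose c hc using hx'
        have h2 : a • x = ∑ i, c i • (a • (θ⁻¹ * u i)) := by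
          have h3 : x = θ⁻¹ * (θ * x) := by rw [← mul_assoc, inv_mul_cancel₀ hθ, one_mul]
          conv_lhs => rw [h3, ← u.sum_repr (θ * x), Finset.mul_sum, Finset.smul_sum]
          refine Finset.sum_congr rfl fun i _ => ?_
          rw [← hc, algebraMap_smul, smul_comm (c i) a, mul_smul_comm]
        rw [h2]
        refine IsIntegral.sum _ fun i _ => ?_
        exact IsIntegral.smul _ (ha _ (Finset.mem_image_of_mem _ (Finset.mem_univ i)))
      refine ⟨⟨a • x, h1⟩, ?_⟩
      change a • x = algebraMap A K a * x
      rw [Algebra.smul_def])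
  refine ⟨l, hl, fun x hx => ?_⟩
  obtain ⟨b, c, hbc⟩ := hl2 x hx
  exact ⟨b, c, b.2, c.2, hbc⟩

include hL hθ hθL in
theorem lattice_integral (hmul : ∀ x y : K, θ * x ∈ L → θ * y ∈ L → θ * (x * y) ∈ L) (x : K)
    (hx : θ * x ∈ L) : IsIntegral A x := by
  let N : Submodule A K := Submodule.span A (Set.range fun i => θ⁻¹ * u i)
  have hN : ∀ y, y ∈ N ↔ θ * y ∈ L := by
    intro y
    rw [hL, Submodule.mem_span_range_iff_exists_fun]
    constructor
    · rintro ⟨c, rfl⟩ i
      have : θ * ∑ i, c i • (θ⁻¹ * u i) = ∑ i, algebraMap A F (c i) • u i := by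
        rw [Finset.mul_sum]
        refine Finset.sum_congr rfl fun i _ => ?_
        rw [algebraMap_smul, mul_smul_comm, ← mul_assoc, mul_inv_cancel₀ hθ, one_mul]
      rw [this, u.repr_sum_self]
      exact ⟨_, rfl⟩
    · intro h
      choose c hc using h
      refine ⟨c, ?_⟩
      have h3 : y = θ⁻¹ * (θ * y) := by rw [← mul_assoc, inv_mul_cancel₀ hθ, one_mul]
      conv_rhs => rw [h3, ← u.sum_repr (θ * y), Finset.mul_sum]
      refine Finset.sum_congr rfl fun i _ => ?_
      rw [← hc, algebraMap_smul, mul_smul_comm]
  have h1 : (1 : K) ∈ N := by rw [hN, mul_one]; exact hθL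
  refine isIntegral_of_smul_mem_submodule (M := K) N ?_ ?_ x ?_
  · intro h
    rw [h, Submodule.mem_bot] at h1
    exact one_ne_zero h1
  · exact Submodule.fg_span (Set.finite_range _)
  · intro n hn
    rw [hN] at hn ⊢
    rw [smul_eq_mul]
    exact hmul x n hx hn

end lattice

section families

variable {k : Type*} [Field k] {V : Type*} [AddCommGroup V] [Module (RatFunc k) V] [Module k V]
  [IsScalarTower k (RatFunc k) V] {ι : Type*} [Fintype ι]

theorem finrank_degreeLT (n : ℕ) : finrank k (degreeLT k n) = n := by
  rw [(degreeLTEquiv k n).finrank_eq]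
  simp

instance (n : ℕ) : FiniteDimensional k (degreeLT k n) :=
  Module.Finite.equiv (degreeLTEquiv k n).symm

variable (k) in
/-- combinations of the vectors `b i` with polynomial coefficients of bounded degree -/
noncomputable def comb (b : ι → V) (n : ι → ℕ) : (∀ i, degreeLT k (n i)) →ₗ[k] V where
  toFun p := ∑ i, algebraMap k[X] (RatFunc k) (p i) • b i
  map_add' p q := by
    rw [← Finset.sum_add_distrib]
    refine Finset.sum_congr rfl fun i _ => ?_
    rw [Pi.add_apply, Submodule.coe_add, map_add, add_smul]
  map_smul' c p := by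
    rw [RingHom.id_apply, Finset.smul_sum]
    refine Finset.sum_congr rfl fun i _ => ?_
    rw [Pi.smul_apply, Submodule.coe_smul, ← smul_assoc]
    congr 1
    rw [Polynomial.smul_eq_C_mul, map_mul, Algebra.smul_def, alg_k_eq]
    simp

theorem comb_apply (b : ι → V) (n : ι → ℕ) (p : ∀ i, degreeLT k (n i)) :
    comb k b n p = ∑ i, algebraMap k[X] (RatFunc k) (p i) • b i := rfl

theorem finrank_dom (n : ι → ℕ) : finrank k (∀ i, degreeLT k (n i)) = ∑ i, n i := by
  rw [Module.finrank_pi_fintype]
  exact Finset.sum_congr rfl fun i _ => finrank_degreeLT _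

theorem comb_injective {b : ι → V} (n : ι → ℕ) (hb : LinearIndependent (RatFunc k) b) :
    Function.Injective (comb k b n) := by
  rw [← LinearMap.ker_eq_bot, LinearMap.ker_eq_bot']
  intro p hp
  rw [comb_apply] at hp
  have h1 := Fintype.linearIndependent_iff.1 hb _ hp
  ext1 i
  apply Subtype.ext
  exact (map_eq_zero_iff _ (RatFunc.algebraMap_injective k)).1 (h1 i)

theorem mem_degreeLT_iff {p : k[X]} {n : ℤ} :
    p ∈ degreeLT k n.toNat ↔ vi k (algebraMap k[X] (RatFunc k) p) ≤ exp (n - 1) := by
  rw [mem_degreeLT]
  by_cases h : p = 0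
  · simp [h]
  · rw [vi_poly h, exp_le_exp, ← Polynomial.natDegree_lt_iff_degree_lt h]
    omega

end families

end H248
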