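import Pool.Agent.H248R3.P6

/-!
The adapted basis of the structure sheaf of a cover.
-/

set_option autoImplicit false
set_option linter.unusedSectionVars false

open Polynomial WithZero Module
open scoped nonZeroDivisors TensorProduct

namespace H248

variable {k : Type*} [Field k] [IsAlgClosed k] [CharZero k] {K : Type*} [Field K]
  [Algebra (RatFunc k) K] [Algebra k[X] K] [Algebra k K] [IsScalarTower k[X] (RatFunc k) K]
  [IsScalarTower k (RatFunc k) K] [FiniteDimensional (RatFunc k) K]

/-- an adapted basis of `α_* O_C` -/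
structure Adapted (ι : Type*) [Fintype ι] [DecidableEq ι] (w : Basis ι (RatFunc k) K)
    (e : ι → ℤ) : Prop where
  fin : ∀ x, IsIntegral k[X] x ↔ ∀ i, IsPoly (w.repr x i)
  inf : ∀ x, IsIntegral (infRing k) x ↔ ∀ i, vi k (w.repr x i) ≤ exp (-e i)

theorem exists_adapted : ∃ (w : Basis (Fin (finrank (RatFunc k) K)) (RatFunc k) K)
    (e : Fin (finrank (RatFunc k) K) → ℤ), Adapted _ w e := by
  have : CharZero (RatFunc k) := charZero_of_injective_algebraMap (R := k) (algebraMap k (RatFunc k)).injective
  obtain ⟨b0, hb0⟩ := exists_integral_basis k[X] (RatFunc k) K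
  obtain ⟨b1, hb1⟩ := exists_integral_basis (infRing k) (RatFunc k) K
  obtain ⟨w, e, hw, he⟩ := splitting b0 b1
  refine ⟨w, fun i => -e i, ⟨fun x => ?_, fun x => ?_⟩⟩
  · rw [hb0, ← hw]
    rfl
  · rw [hb1]
    simp only [neg_neg]
    rw [← he]
    refine forall_congr' fun i => ?_
    constructor
    · rintro ⟨a, ha⟩
      rw [← ha]
      exact mem_infRing.1 a.2
    · intro h
      exact ⟨⟨_, mem_infRing.2 h⟩, rfl⟩

variable {ι : Type*} [Fintype ι] [DecidableEq ι] {w : Basis ι (RatFunc k) K} {e : ι → ℤ}

theorem Adapted.fin_self (h : Adapted ι w e) (i : ι) : IsIntegral k[X] (w i) := by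
  rw [h.fin]
  exact fun j => isPoly_repr_self w i j

theorem Adapted.inf_zpow (h : Adapted ι w e) (i : ι) :
    IsIntegral (infRing k) ((RatFunc.X : RatFunc k) ^ (-e i) • w i) := by
  rw [h.inf]
  intro j
  rw [map_smul, Finsupp.smul_apply, Basis.repr_self, Finsupp.single_apply, smul_eq_mul]
  split_ifs with hij
  · subst hij
    rw [mul_one, vi_zpow]
  · rw [mul_zero, map_zero]
    exact zero_le

theorem Adapted.const (h : Adapted ι w e) {i : ι} (hi : e i ≤ 0) :
    ∃ c : k, c ≠ 0 ∧ w i = algebraMap (RatFunc k) K (RatFunc.C c) := by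
  have h1 : IsIntegral (infRing k) (w i) := by
    rw [h.inf]
    intro j
    rw [Basis.repr_self, Finsupp.single_apply]
    split_ifs with hij
    · subst hij
      rw [map_one, ← exp_zero, exp_le_exp]
      omega
    · rw [map_zero]
      exact zero_le
  obtain ⟨c, hc⟩ := const_of_integral (h.fin_self i) h1
  refine ⟨c, ?_, hc⟩
  rintro rfl
  apply w.ne_zero i
  rw [hc]
  simp

theorem Adapted.exists_zero (h : Adapted ι w e) : ∃ j0 : ι, e j0 = 0 ∧ (∀ i, i ≠ j0 → 1 ≤ e i) ∧
    ∃ c : k, c ≠ 0 ∧ w j0 = algebraMap (RatFunc k) K (RatFunc.C c) := by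
  have h1 : ∃ i, w.repr (1 : K) i ≠ 0 := by
    by_contra hcon
    push Not at hcon
    have : w.repr (1 : K) = 0 := by
      ext i
      exact hcon i
    rw [LinearEquiv.map_eq_zero_iff] at this
    exact one_ne_zero this
  obtain ⟨j0, hj0⟩ := h1
  have hle : e j0 ≤ 0 := by
    have h2 : IsPoly (w.repr (1 : K) j0) := (h.fin 1).1 isIntegral_one j0
    have h3 := (h.inf 1).1 isIntegral_one j0
    have h4 := (one_le_vi_poly h2 hj0).trans h3
    rw [← exp_zero, exp_le_exp] at h4
    omega
  obtain ⟨c, hc0, hc⟩ := h.const hle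
  have hc0' : (RatFunc.C c : RatFunc k) ≠ 0 := by simpa using hc0
  refine ⟨j0, ?_, ?_, c, hc0, hc⟩
  · by_contra hne
    have hlt : e j0 ≤ -1 := by omega
    have h5 : IsIntegral k[X] ((RatFunc.X : RatFunc k) • w j0) := by
      rw [h.fin]
      intro j
      rw [map_smul, Finsupp.smul_apply, smul_eq_mul]
      refine IsPoly.mul ?_ (isPoly_repr_self w j0 j)
      simpa using isPoly_X_pow (k := k) 1
    have h6 : IsIntegral (infRing k) ((RatFunc.X : RatFunc k) • w j0) := by
      rw [h.inf]
      intro j
      rw [map_smul, Finsupp.smul_apply, Basis.repr_self, Finsupp.single_apply, smul_eq_mul]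
      split_ifs with hij
      · subst hij
        rw [mul_one]
        have := vi_zpow (k := k) 1
        rw [zpow_one] at this
        rw [this, exp_le_exp]
        omega
      · rw [mul_zero, map_zero]
        exact zero_le
    obtain ⟨c', hc'⟩ := const_of_integral h5 h6
    rw [hc, Algebra.smul_def, ← map_mul] at hc'
    have h7 := (algebraMap (RatFunc k) K).injective hc'
    have h8 := congrArg (vi k) h7
    rw [map_mul, vi_C hc0] at h8
    have := vi_zpow (k := k) 1
    rw [zpow_one] at this
    rw [this, mul_one] at h8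
    have h9 := vi_C_le c'
    rw [← h8, ← exp_zero, exp_le_exp] at h9
    omega
  · intro i hi
    by_contra hlt
    obtain ⟨c', hc0', hc'⟩ := h.const (i := i) (by omega)
    have h5 : w i = (RatFunc.C (c' / c) : RatFunc k) • w j0 := by
      rw [hc, hc', Algebra.smul_def, ← map_mul, ← map_mul, div_mul_cancel₀ _ hc0]
    have h6 := congrArg (fun x => w.repr x i) h5
    simp only [map_smul, Finsupp.smul_apply, Basis.repr_self, Finsupp.single_apply, if_true,
      if_neg (Ne.symm hi), smul_zero] at h6
    exact one_ne_zero h6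

/-! ### the dual basis -/

variable (w) in
/-- the dual basis for the trace form -/
noncomputable def dualB : Basis ι (RatFunc k) K :=
  have : CharZero (RatFunc k) := charZero_of_injective_algebraMap (R := k) (algebraMap k (RatFunc k)).injective
  (Algebra.traceForm (RatFunc k) K).dualBasis (traceForm_nondegenerate (RatFunc k) K) w

theorem dualB_repr (x : K) (i : ι) :
    (dualB w).repr x i = Algebra.trace (RatFunc k) K (x * w i) := by
  have : CharZero (RatFunc k) := charZero_of_injective_algebraMap (R := k) (algebraMap k (RatFunc k)).injective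
  exact LinearMap.BilinForm.dualBasis_repr_apply _ _ _ _

theorem trace_dualB_mul (i j : ι) :
    Algebra.trace (RatFunc k) K (dualB w i * w j) = if i = j then 1 else 0 := by
  rw [← dualB_repr, Basis.repr_self, Finsupp.single_apply]

theorem repr_eq_trace (x : K) (j : ι) :
    w.repr x j = Algebra.trace (RatFunc k) K (x * dualB w j) := by
  conv_rhs => rw [← w.sum_repr x, Finset.sum_mul, map_sum]
  rw [Finset.sum_eq_single j]
  · rw [smul_mul_assoc, map_smul, mul_comm (w j), trace_dualB_mul, if_pos rfl, smul_eq_mul, mul_one]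
  · intro i _ hij
    rw [smul_mul_assoc, map_smul, mul_comm (w i), trace_dualB_mul, if_neg (Ne.symm hij), smul_zero]
  · simp

theorem Adapted.mem_omegaFin (h : Adapted ι w e) (x : K) :
    x ∈ omegaFin k K ↔ ∀ i, IsPoly ((dualB w).repr x i) := by
  constructor
  · intro hx i
    rw [dualB_repr]
    obtain ⟨p, hp⟩ := hx _ (h.fin_self i)
    exact ⟨p, hp.symm⟩
  · intro hx y hy
    have h1 : Algebra.trace (RatFunc k) K (x * y) =
        ∑ i, w.repr y i * (dualB w).repr x i := by
      conv_lhs => rw [← w.sum_repr y, Finset.mul_sum, map_sum]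
      refine Finset.sum_congr rfl fun i _ => ?_
      rw [mul_smul_comm, map_smul, smul_eq_mul, dualB_repr]
    have h2 : IsPoly (Algebra.trace (RatFunc k) K (x * y)) := by
      rw [h1]
      exact IsPoly.sum _ fun i _ => ((h.fin y).1 hy i).mul (hx i)
    obtain ⟨p, hp⟩ := h2
    exact ⟨p, hp.symm⟩

theorem Adapted.mem_omegaInf (h : Adapted ι w e) (x : K) :
    x ∈ omegaInf k K ↔ ∀ i, vi k ((dualB w).repr x i) ≤ exp (e i) := by
  constructor
  · intro hx i
    rw [dualB_repr]
    have h1 := hx _ (h.inf_zpow i)
    rw [mem_infRing, mul_smul_comm, map_smul, smul_eq_mul, vi_X_mul, exp_mul_le_one, neg_neg] at h1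
    exact h1
  · intro hx y hy
    have h1 : Algebra.trace (RatFunc k) K (x * y) =
        ∑ i, w.repr y i * (dualB w).repr x i := by
      conv_lhs => rw [← w.sum_repr y, Finset.mul_sum, map_sum]
      refine Finset.sum_congr rfl fun i _ => ?_
      rw [mul_smul_comm, map_smul, smul_eq_mul, dualB_repr]
    rw [mem_infRing, h1]
    refine Valuation.map_sum_le _ fun i _ => ?_
    rw [map_mul]
    calc _ ≤ exp (-e i) * exp (e i) := mul_le_mul' ((h.inf y).1 hy i) (hx i)
      _ = 1 := by rw [← exp_add]; simp

/-- the canonical sections -/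
theorem Adapted.mem_regular (h : Adapted ι w e) (x : K) : x ∈ regularDifferentials k K ↔
    ∀ i, IsPoly ((dualB w).repr x i) ∧ vi k ((dualB w).repr x i) ≤ exp (e i - 2) := by
  change (x ∈ omegaFin k K ∧ algebraMap (RatFunc k) K (RatFunc.X ^ 2) * x ∈ omegaInf k K) ↔ _
  rw [h.mem_omegaFin, h.mem_omegaInf, ← forall_and]
  refine forall_congr' fun i => ?_
  rw [← Algebra.smul_def, map_smul, Finsupp.smul_apply, smul_eq_mul]
  have : (RatFunc.X : RatFunc k) ^ 2 = RatFunc.X ^ (2 : ℤ) := rfl
  rw [this, vi_X_mul, exp_mul_le]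

theorem Adapted.regular_eq (h : Adapted ι w e) :
    LinearMap.range (comb k (dualB w) fun i => (e i - 1).toNat) = regularDifferentials k K := by
  ext x
  rw [h.mem_regular]
  constructor
  · rintro ⟨p, rfl⟩ i
    rw [comb_apply, Basis.repr_sum_self]
    refine ⟨⟨_, rfl⟩, ?_⟩
    have := mem_degreeLT_iff.1 (p i).2
    convert this using 2
    ring
  · intro hx
    choose p hp using fun i => (hx i).1
    refine ⟨fun i => ⟨p i, ?_⟩, ?_⟩
    · rw [mem_degreeLT_iff, hp]
      convert (hx i).2 using 2
      ring
    · rw [comb_apply]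
      conv_rhs => rw [← (dualB w).sum_repr x]
      refine Finset.sum_congr rfl fun i _ => ?_
      exact congrArg (· • dualB w i) (hp i)

theorem Adapted.genus_eq (h : Adapted ι w e) : genus k K = ∑ i, (e i - 1).toNat := by
  rw [genus, ← h.regular_eq,
    LinearMap.finrank_range_of_inj (comb_injective _ (dualB w).linearIndependent), finrank_dom]

theorem Adapted.rank_regular (h : Adapted ι w e) :
    Module.rank k (regularDifferentials k K) = (genus k K : ℕ) := by
  have : FiniteDimensional k (regularDifferentials k K) := by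
    rw [← h.regular_eq]
    infer_instance
  rw [genus, Module.finrank_eq_rank]

end H248
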